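import Pool.Agent.Helper34.SQ.GoalsG

/-!
# Project SQ (MP_bb32d1_al), packet FIT: iterates of `F_c`
-/

set_option autoImplicit false

namespace Pool.Agent.Helper8.SQ

open Finset Pool.Agent.Helper34.SQ

/-- counting the pairs `(p, T)` with `p ∈ T` -/
theorem sum_insert_erase {α : Type} [DecidableEq α] (Q : Finset α) (f : Finset α → ℤ) (h : ℕ) :
    ∑ p ∈ Q, ∑ T ∈ powersetCard h (Q.erase p), f (insert p T) =
      (h + 1) * ∑ T ∈ powersetCard (h + 1) Q, f T := by
  have h1 : ((h : ℤ) + 1) * ∑ T ∈ powersetCard (h + 1) Q, f T =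
      ∑ T ∈ powersetCard (h + 1) Q, ∑ _p ∈ T, f T := by
    rw [Finset.mul_sum]
    apply Finset.sum_congr rfl
    intro T hT
    rw [Finset.sum_const, (Finset.mem_powersetCard.mp hT).2, nsmul_eq_mul]
    push_cast
    rfl
  rw [h1, Finset.sum_sigma', Finset.sum_sigma']
  refine Finset.sum_bij' (fun s _ => ⟨insert s.1 s.2, s.1⟩) (fun s _ => ⟨s.2, s.1.erase s.2⟩)
    ?_ ?_ ?_ ?_ ?_
  · rintro ⟨p, T⟩ hs
    rw [Finset.mem_sigma, Finset.mem_powersetCard] at hs
    obtain ⟨hp, hT, hc⟩ := hs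
    have hpT : p ∉ T := fun h2 => (Finset.mem_erase.mp (hT h2)).1 rfl
    rw [Finset.mem_sigma, Finset.mem_powersetCard]
    refine ⟨⟨?_, ?_⟩, Finset.mem_insert_self _ _⟩
    · exact Finset.insert_subset hp (hT.trans (Finset.erase_subset _ _))
    · show (insert p T).card = h + 1
      rw [Finset.card_insert_of_notMem hpT]
      exact congrArg (· + 1) hc
  · rintro ⟨T, p⟩ hs
    rw [Finset.mem_sigma, Finset.mem_powersetCard] at hs
    obtain ⟨⟨hT, hc⟩, hp⟩ := hs
    rw [Finset.mem_sigma, Finset.mem_powersetCard]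
    refine ⟨hT hp, Finset.erase_subset_erase _ hT, ?_⟩
    show (T.erase p).card = h
    rw [Finset.card_erase_of_mem hp]
    have h2 : T.card = h + 1 := hc
    omega
  · rintro ⟨p, T⟩ hs
    rw [Finset.mem_sigma, Finset.mem_powersetCard] at hs
    obtain ⟨hp, hT, hc⟩ := hs
    have hpT : p ∉ T := fun h2 => (Finset.mem_erase.mp (hT h2)).1 rfl
    show (⟨p, (insert p T).erase p⟩ : Σ _ : α, Finset α) = ⟨p, T⟩
    rw [Finset.erase_insert hpT]
  · rintro ⟨T, p⟩ hs
    rw [Finset.mem_sigma, Finset.mem_powersetCard] at hs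
    obtain ⟨⟨hT, hc⟩, hp⟩ := hs
    show (⟨insert p (T.erase p), p⟩ : Σ _ : Finset α, α) = ⟨T, p⟩
    rw [Finset.insert_erase hp]
  · intro s _
    rfl

theorem sub_ind {n : ℕ} (x : Fin n → ℤ) (p : Fin n) (T : Finset (Fin n)) (hp : p ∉ T) :
    x - Pi.single p 1 - ind T = x - ind (insert p T) := by
  funext j
  simp only [Pi.sub_apply, ind]
  by_cases hj : j = p
  · subst hj
    rw [Pi.single_eq_same, if_neg hp, if_pos (Finset.mem_insert_self _ _)]
    ring
  · rw [Pi.single_eq_of_ne hj]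
    by_cases h : j ∈ T
    · rw [if_pos h, if_pos (Finset.mem_insert_of_mem h)]
      ring
    · have h2 : j ∉ insert p T := fun h3 => (Finset.mem_insert.mp h3).elim hj h
      rw [if_neg h, if_neg h2]
      ring

theorem filter_sub {n l : ℕ} (hl : 2 ≤ l) (c : ZMod l) (x : Fin n → ℤ) (p : Fin n)
    (hp : ((x p : ℤ) : ZMod l) = c + 1) :
    ({j | (((x - Pi.single p 1 : Fin n → ℤ) j : ℤ) : ZMod l) = c + 1} : Finset (Fin n)) =
      ({j | ((x j : ℤ) : ZMod l) = c + 1} : Finset (Fin n)).erase p := by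
  have hnt : Fact (1 < l) := ⟨by omega⟩
  ext j
  rw [Finset.mem_erase, Finset.mem_filter, Finset.mem_filter]
  by_cases hj : j = p
  · subst hj
    rw [Pi.sub_apply, Pi.single_eq_same]
    push_cast
    rw [hp]
    constructor
    · rintro ⟨_, h⟩
      exfalso
      have h2 : (1 : ZMod l) = 0 := by
        have h3 : c + 1 - 1 = c + 1 := h
        have h4 : c + 1 - 1 - c = c + 1 - c := congrArg (· - c) h3
        ring_nf at h4
        exact h4.symm
      exact one_ne_zero h2
    · rintro ⟨h, _⟩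
      exact absurd rfl h
  · rw [Pi.sub_apply, Pi.single_eq_of_ne hj, sub_zero]
    constructor
    · rintro ⟨h1, h2⟩
      exact ⟨hj, h1, h2⟩
    · rintro ⟨_, h1, h2⟩
      exact ⟨h1, h2⟩

theorem t_fit : Pool.Agent.Helper34.SQ.S_FIT := by
  intro n l hl c β h
  induction h with
  | zero =>
    intro x
    rw [Function.iterate_zero, id_eq, Nat.factorial_zero, Nat.cast_one, one_mul,
      Finset.powersetCard_zero, Finset.sum_singleton]
    congr 1
    funext j
    simp [ind]
  | succ h ih =>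
    intro x
    rw [Function.iterate_succ_apply']
    show ∑ p with ((x p : ℤ) : ZMod l) = c + 1, ((Fc l c)^[h] β) (x - Pi.single p 1) = _
    have h1 : ∑ p with ((x p : ℤ) : ZMod l) = c + 1, ((Fc l c)^[h] β) (x - Pi.single p 1) =
        ∑ p with ((x p : ℤ) : ZMod l) = c + 1, (h.factorial : ℤ) *
          ∑ T ∈ powersetCard h
            (({j | ((x j : ℤ) : ZMod l) = c + 1} : Finset (Fin n)).erase p),
            β (x - ind (insert p T)) := by
      apply Finset.sum_congr rfl
      intro p hp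
      rw [ih, filter_sub hl c x p (Finset.mem_filter.mp hp).2]
      congr 1
      apply Finset.sum_congr rfl
      intro T hT
      rw [sub_ind]
      intro h2
      exact (Finset.mem_erase.mp ((Finset.mem_powersetCard.mp hT).1 h2)).1 rfl
    rw [h1, ← Finset.mul_sum, sum_insert_erase _ (fun T => β (x - ind T)) h, Nat.factorial_succ]
    push_cast
    ring

end Pool.Agent.Helper8.SQ
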