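import Pool.Agent.Helper19.SQ.GoalsQ

/-!
# Project SQ (MP_bb32d1_al), packet QB: the `q`-binomial theorem at a root of unity
-/

set_option autoImplicit false

namespace Pool.Agent.Helper8.SQ

open Pool.Agent.Helper19.SQ

/-- Gaussian binomials -/
noncomputable def gb (t : ℂ) : ℕ → ℕ → ℂ
  | 0, 0 => 1
  | 0, _ + 1 => 0
  | _ + 1, 0 => 1
  | n + 1, k + 1 => gb t n k + t ^ (k + 1) * gb t n (k + 1)

theorem gb_zero (t : ℂ) (n : ℕ) : gb t n 0 = 1 := by
  cases n with
  | zero => rw [gb]
  | succ n => rw [gb]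

theorem gb_succ (t : ℂ) (n k : ℕ) :
    gb t (n + 1) (k + 1) = gb t n k + t ^ (k + 1) * gb t n (k + 1) := by rw [gb]

theorem gb_lt (t : ℂ) : ∀ n k, n < k → gb t n k = 0 := by
  intro n
  induction n with
  | zero =>
    intro k hk
    obtain ⟨j, rfl⟩ : ∃ j, k = j + 1 := ⟨k - 1, by omega⟩
    rw [gb]
  | succ n ih =>
    intro k hk
    obtain ⟨j, rfl⟩ : ∃ j, k = j + 1 := ⟨k - 1, by omega⟩
    rw [gb_succ, ih j (by omega), ih (j + 1) (by omega), mul_zero, add_zero]

theorem gb_self (t : ℂ) (n : ℕ) : gb t n n = 1 := by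
  induction n with
  | zero => rw [gb]
  | succ n ih => rw [gb_succ, ih, gb_lt t n (n + 1) (by omega), mul_zero, add_zero]

theorem gb_prod (t : ℂ) : ∀ n k, gb t n k * ∏ i ∈ Finset.range k, (1 - t ^ (i + 1)) =
    ∏ i ∈ Finset.range k, (1 - t ^ (n - i)) := by
  intro n
  induction n with
  | zero =>
    intro k
    cases k with
    | zero => rw [gb, Finset.prod_range_zero, Finset.prod_range_zero, mul_one]
    | succ k =>
      rw [gb_lt t 0 (k + 1) (by omega), zero_mul, Finset.prod_range_succ']
      simp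
  | succ n ih =>
    intro k
    cases k with
    | zero => rw [gb_zero, Finset.prod_range_zero, Finset.prod_range_zero, mul_one]
    | succ k =>
      have h1 : ∏ i ∈ Finset.range (k + 1), (1 - t ^ (n + 1 - i)) =
          (∏ i ∈ Finset.range k, (1 - t ^ (n - i))) * (1 - t ^ (n + 1)) := by
        rw [Finset.prod_range_succ']
        congr 1
        apply Finset.prod_congr rfl
        intro i _
        rw [Nat.add_sub_add_right]
      have h2 := ih k
      have h3 := ih (k + 1)
      rw [Finset.prod_range_succ (fun i => 1 - t ^ (n - i))] at h3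
      rw [h1, gb_succ, add_mul, mul_assoc, h3, Finset.prod_range_succ, ← mul_assoc, h2]
      rcases Nat.lt_or_ge n k with h4 | h4
      · have h5 : ∏ i ∈ Finset.range k, (1 - t ^ (n - i)) = 0 := by
          apply Finset.prod_eq_zero (Finset.mem_range.mpr h4)
          rw [Nat.sub_self, pow_zero, sub_self]
        rw [h5]
        ring
      · have h5 : t ^ (n + 1) = t ^ (k + 1) * t ^ (n - k) := by
          rw [← pow_add]
          congr 1
          omega
        rw [h5]
        ring

theorem gb_root {t : ℂ} {l : ℕ} (ht : IsPrimitiveRoot t l) {k : ℕ} (h0 : 0 < k) (hk : k < l) :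
    gb t l k = 0 := by
  have h1 := gb_prod t l k
  have h2 : ∏ i ∈ Finset.range k, (1 - t ^ (l - i)) = 0 := by
    apply Finset.prod_eq_zero (Finset.mem_range.mpr h0)
    rw [Nat.sub_zero, ht.pow_eq_one, sub_self]
  rw [h2] at h1
  refine (mul_eq_zero.mp h1).resolve_right ?_
  apply Finset.prod_ne_zero_iff.mpr
  intro i hi h3
  have h4 : t ^ (i + 1) = 1 := (sub_eq_zero.mp h3).symm
  exact ht.pow_ne_one_of_pos_of_lt (by omega) (by have := Finset.mem_range.mp hi; omega) h4

theorem comm_pow {B : Type} [Ring B] [Algebra ℂ B] (t : ℂ) (x y : B) (h : x * y = t • (y * x))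
    (k : ℕ) : x * y ^ k = t ^ k • (y ^ k * x) := by
  induction k with
  | zero => rw [pow_zero, mul_one, pow_zero, one_mul, one_smul]
  | succ k ih =>
    rw [pow_succ y k, ← mul_assoc, ih, smul_mul_assoc, mul_assoc, h, mul_smul_comm, smul_smul,
      ← mul_assoc, pow_succ]

theorem binom {B : Type} [Ring B] [Algebra ℂ B] (t : ℂ) (x y : B) (h : x * y = t • (y * x))
    (n : ℕ) : (x + y) ^ n = ∑ k ∈ Finset.range (n + 1), gb t n k • (y ^ k * x ^ (n - k)) := by
  induction n with
  | zero => rw [Finset.sum_range_one, gb, one_smul, pow_zero, pow_zero, Nat.sub_zero, pow_zero,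
      one_mul]
  | succ n ih =>
    have h1 : x * ∑ k ∈ Finset.range (n + 1), gb t n k • (y ^ k * x ^ (n - k)) =
        ∑ k ∈ Finset.range (n + 2), (t ^ k * gb t n k) • (y ^ k * x ^ (n + 1 - k)) := by
      rw [Finset.sum_range_succ _ (n + 1), gb_lt t n (n + 1) (by omega), mul_zero, zero_smul,
        add_zero, Finset.mul_sum]
      apply Finset.sum_congr rfl
      intro k hk
      have hk' : k ≤ n := by have := Finset.mem_range.mp hk; omega
      have h2 : n + 1 - k = n - k + 1 := by omega
      rw [mul_smul_comm, ← mul_assoc, comm_pow t x y h, smul_mul_assoc, smul_smul, h2,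
        pow_succ', mul_assoc, mul_comm (gb t n k)]
    have h3 : y * ∑ k ∈ Finset.range (n + 1), gb t n k • (y ^ k * x ^ (n - k)) =
        ∑ k ∈ Finset.range (n + 1), gb t n k • (y ^ (k + 1) * x ^ (n - k)) := by
      rw [Finset.mul_sum]
      apply Finset.sum_congr rfl
      intro k _
      rw [mul_smul_comm, ← mul_assoc, ← pow_succ']
    rw [pow_succ', add_mul, ih, h1, h3, Finset.sum_range_succ', Finset.sum_range_succ' _ (n + 1),
      gb_zero, gb_zero, pow_zero, one_mul, add_right_comm, ← Finset.sum_add_distrib]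
    congr 1
    apply Finset.sum_congr rfl
    intro k _
    rw [Nat.add_sub_add_right, ← add_smul, gb_succ, add_comm (gb t n k)]

theorem sQBIN : Pool.Agent.Helper19.SQ.S_QBIN := by
  intro B _ _ l q hl hq x y h
  have hl0 : 0 < l := hl.pos
  have ht : IsPrimitiveRoot (q ^ 2) l :=
    hq.pow_of_coprime 2 ((Nat.coprime_two_left).mpr hl)
  rw [binom (q ^ 2) x y h l, Finset.sum_range_succ, gb_self, one_smul, Nat.sub_self, pow_zero x,
    mul_one]
  congr 1
  obtain ⟨m, rfl⟩ : ∃ m, l = m + 1 := ⟨l - 1, by omega⟩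
  rw [Finset.sum_range_succ', Finset.sum_eq_zero, zero_add, gb_zero, one_smul, pow_zero, one_mul,
    Nat.sub_zero]
  intro k hk
  rw [gb_root ht (by omega) (by have := Finset.mem_range.mp hk; omega), zero_smul]

theorem sQBINS : Pool.Agent.Helper19.SQ.S_QBINS := by
  intro B _ _ l q hl hq n
  induction n with
  | zero =>
    intro T _ _
    rw [Finset.sum_range_zero, zero_pow hl.pos.ne']
  | succ n ih =>
    intro T h1 h2
    rw [Finset.sum_range_succ, sQBIN B l q hl hq, ih T (fun p r hp hr => h1 p r hp (by omega))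
      (fun p hp => h2 p (by omega)), h2 n (by omega), add_zero]
    rw [Finset.sum_mul, Finset.mul_sum, Finset.smul_sum]
    apply Finset.sum_congr rfl
    intro p hp
    exact h1 p n (Finset.mem_range.mp hp) (by omega)

end Pool.Agent.Helper8.SQ
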