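import Pool.Agent.Helper19.SQ.GoalsQ2

/-!
# Project SQ (MP_bb32d1_al), packet XF: `X2 = R_Y X13 R_L`
-/

set_option autoImplicit false

namespace Pool.Agent.Helper8.SQ

open Pool.Agent.Helper19.SQ Matrix

theorem reorder {n M : Type} [Fintype n] [AddCommMonoid M] (F : n → n → n → n → M) :
    ∑ p2, ∑ t, ∑ p1, ∑ r, F r t p1 p2 = ∑ r, ∑ t, ∑ p1, ∑ p2, F r t p1 p2 := by
  calc ∑ p2, ∑ t, ∑ p1, ∑ r, F r t p1 p2 = ∑ p2, ∑ t, ∑ r, ∑ p1, F r t p1 p2 :=
        Finset.sum_congr rfl fun _ _ => Finset.sum_congr rfl fun _ _ => Finset.sum_comm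
    _ = ∑ p2, ∑ r, ∑ t, ∑ p1, F r t p1 p2 :=
        Finset.sum_congr rfl fun _ _ => Finset.sum_comm
    _ = ∑ r, ∑ p2, ∑ t, ∑ p1, F r t p1 p2 := Finset.sum_comm
    _ = ∑ r, ∑ t, ∑ p2, ∑ p1, F r t p1 p2 :=
        Finset.sum_congr rfl fun _ _ => Finset.sum_comm
    _ = ∑ r, ∑ t, ∑ p1, ∑ p2, F r t p1 p2 :=
        Finset.sum_congr rfl fun _ _ => Finset.sum_congr rfl fun _ _ => Finset.sum_comm

theorem sXF (hEL : S_EL) (hEY : S_EY) : Pool.Agent.Helper19.SQ.S_XF := by
  intro N l q hp D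
  ext x y
  -- the left side
  have h1 : X2 D.ep (Xm N l q) x y = ∑ r : Fin (N + 1), ∑ t : Fin (N + 1),
      ∑ p1 : Fin (N + 1), ∑ p2 : Fin (N + 1),
        (RYm N q x (p1, t) * RLm N q (p2, t) y) •
          (Yent q (gF N l q) (gK N l q) p1 r * Lent q (gE N l q) (gK N l q) r p2) := by
    show D.ep (Xm N l q x.1 y.1) x.2 y.2 = _
    have e1 : Xm N l q x.1 y.1 = ∑ r : Fin (N + 1),
        Yent q (gF N l q) (gK N l q) x.1 r * Lent q (gE N l q) (gK N l q) r y.1 := by
      unfold Xm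
      rw [Matrix.mul_apply]
      rfl
    rw [e1, map_sum, Matrix.sum_apply]
    apply Finset.sum_congr rfl
    intro r _
    rw [map_mul, Matrix.mul_apply]
    apply Finset.sum_congr rfl
    intro t _
    rw [hEL N l q hp D r y.1 t y.2, hEY N l q hp D x.1 r x.2 t, Finset.sum_mul_sum]
    apply Finset.sum_congr rfl
    intro p1 _
    apply Finset.sum_congr rfl
    intro p2 _
    rw [smul_mul_smul_comm]
  -- the right side
  have h2 : (sc (A N l q) (RYm N q) * X13 N l q * sc (A N l q) (RLm N q)) x y =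
      ∑ p2 : Fin (N + 1), ∑ t : Fin (N + 1), ∑ p1 : Fin (N + 1), ∑ r : Fin (N + 1),
        (RYm N q x (p1, t) * RLm N q (p2, t) y) •
          (Yent q (gF N l q) (gK N l q) p1 r * Lent q (gE N l q) (gK N l q) r p2) := by
    rw [Matrix.mul_apply, Fintype.sum_prod_type]
    apply Finset.sum_congr rfl
    intro p2 _
    apply Finset.sum_congr rfl
    intro t _
    rw [Matrix.mul_apply, Fintype.sum_prod_type, Finset.sum_mul]
    apply Finset.sum_congr rfl
    intro p1 _
    rw [Finset.sum_eq_single t]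
    · have e2 : X13 N l q (p1, t) (p2, t) = ∑ r : Fin (N + 1),
          Yent q (gF N l q) (gK N l q) p1 r * Lent q (gE N l q) (gK N l q) r p2 := by
        unfold X13
        rw [Matrix.of_apply, if_pos rfl]
        unfold Xm
        rw [Matrix.mul_apply]
        rfl
      rw [e2, Finset.mul_sum, Finset.sum_mul]
      apply Finset.sum_congr rfl
      intro r _
      show algebraMap ℂ (A N l q) (RYm N q x (p1, t)) * _ *
        algebraMap ℂ (A N l q) (RLm N q (p2, t) y) = _
      rw [← Algebra.smul_def, ← Algebra.commutes, ← Algebra.smul_def, smul_smul,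
        mul_comm (RLm N q (p2, t) y)]
    · intro t' _ ht'
      have e3 : X13 N l q (p1, t') (p2, t) = 0 := by
        unfold X13
        rw [Matrix.of_apply, if_neg ht']
      rw [e3, mul_zero]
    · intro h
      exact absurd (Finset.mem_univ _) h
  rw [h1, h2, reorder]

end Pool.Agent.Helper8.SQ
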