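import Pool.Agent.Helper19.SQ.GoalsH

/-!
# Project SQ (MP_bb32d1_al), packet JK: the joint kernel of the formal left multiplications
-/

set_option autoImplicit false

namespace Pool.Agent.Helper8.SQ

open Pool.Agent.Helper19.SQ

theorem inc_apply (b : ℕ → ℕ → ℕ) (i j i' j' : ℕ) :
    inc b i j i' j' = if i' = i ∧ j' = j then b i j + 1 else b i' j' := rfl

theorem mvr_apply (b : ℕ → ℕ → ℕ) (i k i' j' : ℕ) :
    mvr b i k i' j' = if i' = i ∧ j' = k + 1 then b i (k + 1) + 1 else
      if i' = i ∧ j' = k then b i k - 1 else b i' j' := by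
  have h : upd b i k (b i k - 1) i (k + 1) = b i (k + 1) := by
    unfold upd
    rw [if_neg (by omega)]
  show (if i' = i ∧ j' = k + 1 then upd b i k (b i k - 1) i (k + 1) + 1 else
    upd b i k (b i k - 1) i' j') = _
  rw [h]
  rfl

theorem wL_ne (q : ℂ) (hq : q ≠ 0) (b : ℕ → ℕ → ℕ) (k i : ℕ) : wL q b k i ≠ 0 := by
  unfold wL
  rw [Finset.prod_ne_zero_iff]
  intro i' _
  exact zpow_ne_zero _ hq

theorem q_ne {N l : ℕ} {q : ℂ} (h : Par N l q) : q ≠ 0 := by
  have h3 := h.h3
  exact h.prim.ne_zero (by omega)

theorem qn_ne {N l : ℕ} {q : ℂ} (h : Par N l q) : qn q (l - 1) ≠ 0 := by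
  have h3 := h.h3
  have hq := q_ne h
  have h1 : q ^ (l - 1) * q = 1 := by
    rw [← pow_succ, Nat.sub_add_cancel (by omega)]
    exact h.prim.pow_eq_one
  have h2 : q ^ (l - 1) = q⁻¹ := eq_inv_of_mul_eq_one_left h1
  have h4 : q⁻¹ ^ (l - 1) = q := by rw [inv_pow, h2, inv_inv]
  have h5 : q - q⁻¹ ≠ 0 := by
    intro h6
    have h7 : q ^ 2 = 1 := by
      have h8 : q = q⁻¹ := sub_eq_zero.mp h6
      calc q ^ 2 = q * q := sq q
        _ = q⁻¹ * q := by rw [← h8]
        _ = 1 := inv_mul_cancel₀ hq
    exact h.prim.pow_ne_one_of_pos_of_lt (by norm_num) (by omega) h7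
  unfold qn
  rw [h2, h4]
  apply div_ne_zero _ h5
  intro h6
  apply h5
  rw [← neg_eq_zero, neg_sub]
  exact h6

variable {N l : ℕ} {q : ℂ}

theorem step (h : Par N l q) (x : EX N l → ℂ)
    (hx : ∀ k, k < N → ∀ b' : EX N l, ∑ b : EX N l, x b * Lf q k b.1 b'.1 = 0) (k : ℕ)
    (hk : k < N) (hc : ∀ b, x b ≠ 0 → ∀ i j, i < j → j ≤ k → b.1 i j = l - 1)
    (b₀ : EX N l) (hb₀ : x b₀ ≠ 0) (i : ℕ) (hi : i ≤ k) : b₀.1 i (k + 1) = l - 1 := by
  by_contra hne
  have h3 := h.h3
  have hq := q_ne h
  have hlt : b₀.1 i (k + 1) < l := (b₀.2 i (k + 1)).1 ⟨by omega, by omega⟩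
  rcases Nat.lt_or_ge i k with hik | hik
  · -- the family `i < k`
    have hadm : IsEx N l (mvr b₀.1 i k) := by
      intro i' j'
      rw [mvr_apply]
      split_ifs with h1 h2
      · exact ⟨fun _ => by omega, fun h5 => by omega⟩
      · refine ⟨fun _ => ?_, fun h5 => by omega⟩
        have h6 := (b₀.2 i k).1 ⟨hik, by omega⟩
        omega
      · exact b₀.2 i' j'
    have hsum := hx k hk ⟨mvr b₀.1 i k, hadm⟩
    have hbik : b₀.1 i k = l - 1 := hc b₀ hb₀ i k hik le_rfl
    have hval : mvr b₀.1 i k i k = l - 2 := by
      rw [mvr_apply, if_neg (by omega), if_pos ⟨rfl, rfl⟩, hbik]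
      omega
    -- a term of the family `i'` can only be met for `i' = i`
    have hfam : ∀ b : EX N l, x b ≠ 0 → ∀ i', i' < k → mvr b₀.1 i k = mvr b.1 i' k → i' = i := by
      intro b hb i' hi' he
      by_contra hne'
      have h1 := congrFun (congrFun he i) k
      rw [hval, mvr_apply, if_neg (by omega), if_neg (by omega), hc b hb i k hik le_rfl] at h1
      omega
    have hinc : ∀ b : EX N l, x b ≠ 0 → mvr b₀.1 i k ≠ inc b.1 k (k + 1) := by
      intro b hb he
      have h1 := congrFun (congrFun he i) k
      rw [hval, inc_apply, if_neg (by omega), hc b hb i k hik le_rfl] at h1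
      omega
    rw [Finset.sum_eq_single b₀] at hsum
    · rcases mul_eq_zero.mp hsum with h1 | h1
      · exact hb₀ h1
      · unfold Lf at h1
        rw [Finset.sum_eq_single i, if_pos rfl, if_neg (hinc b₀ hb₀), add_zero, hbik] at h1
        · rcases mul_eq_zero.mp h1 with h2 | h2
          · exact wL_ne q hq _ _ _ h2
          · rcases mul_eq_zero.mp h2 with h4 | h4
            · exact hq (neg_eq_zero.mp h4)
            · exact qn_ne h h4
        · intro i' hi' hne'
          rw [if_neg]
          intro he
          exact hne' (hfam b₀ hb₀ i' (Finset.mem_range.mp hi') he)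
        · intro hi'
          exact absurd (Finset.mem_range.mpr hik) hi'
    · intro b _ hbne
      by_cases hb : x b = 0
      · rw [hb, zero_mul]
      · have h1 : Lf q k b.1 (mvr b₀.1 i k) = 0 := by
          unfold Lf
          rw [if_neg (hinc b hb), add_zero]
          apply Finset.sum_eq_zero
          intro i' hi'
          rw [if_neg]
          intro he
          have h2 := hfam b hb i' (Finset.mem_range.mp hi') he
          subst h2
          apply hbne
          apply Subtype.ext
          funext a c
          have h4 := congrFun (congrFun he a) c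
          rw [mvr_apply, mvr_apply] at h4
          by_cases h5 : a = i' ∧ c = k + 1
          · rw [if_pos h5, if_pos h5] at h4
            obtain ⟨rfl, rfl⟩ := h5
            omega
          · rw [if_neg h5, if_neg h5] at h4
            by_cases h6 : a = i' ∧ c = k
            · obtain ⟨rfl, rfl⟩ := h6
              rw [hbik, hc b hb a c hik le_rfl]
            · rw [if_neg h6, if_neg h6] at h4
              exact h4.symm
        show x b * Lf q k b.1 (mvr b₀.1 i k) = 0
        rw [h1, mul_zero]
    · intro h1
      exact absurd (Finset.mem_univ _) h1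
  · -- the term `inc`
    have hik' : i = k := le_antisymm hi hik
    subst hik'
    have hadm : IsEx N l (inc b₀.1 i (i + 1)) := by
      intro i' j'
      rw [inc_apply]
      split_ifs with h1
      · exact ⟨fun _ => by omega, fun h5 => by omega⟩
      · exact b₀.2 i' j'
    have hsum := hx i hk ⟨inc b₀.1 i (i + 1), hadm⟩
    have hfam : ∀ b : EX N l, x b ≠ 0 → ∀ i', i' < i → inc b₀.1 i (i + 1) ≠ mvr b.1 i' i := by
      intro b hb i' hi' he
      have h1 := congrFun (congrFun he i') i
      rw [inc_apply, if_neg (by omega), mvr_apply, if_neg (by omega), if_pos ⟨rfl, rfl⟩,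
        hc b hb i' i hi' le_rfl, hc b₀ hb₀ i' i hi' le_rfl] at h1
      omega
    rw [Finset.sum_eq_single b₀] at hsum
    · rcases mul_eq_zero.mp hsum with h1 | h1
      · exact hb₀ h1
      · unfold Lf at h1
        rw [Finset.sum_eq_zero, if_pos rfl, zero_add] at h1
        · exact wL_ne q hq _ _ _ h1
        · intro i' hi'
          rw [if_neg]
          exact hfam b₀ hb₀ i' (Finset.mem_range.mp hi')
    · intro b _ hbne
      by_cases hb : x b = 0
      · rw [hb, zero_mul]
      · have h1 : Lf q i b.1 (inc b₀.1 i (i + 1)) = 0 := by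
          unfold Lf
          rw [if_neg, add_zero]
          · apply Finset.sum_eq_zero
            intro i' hi'
            rw [if_neg]
            exact hfam b hb i' (Finset.mem_range.mp hi')
          · intro he
            apply hbne
            apply Subtype.ext
            funext a c
            have h4 := congrFun (congrFun he a) c
            rw [inc_apply, inc_apply] at h4
            by_cases h5 : a = i ∧ c = i + 1
            · rw [if_pos h5, if_pos h5] at h4
              obtain ⟨rfl, rfl⟩ := h5
              omega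
            · rw [if_neg h5, if_neg h5] at h4
              exact h4.symm
        show x b * Lf q i b.1 (inc b₀.1 i (i + 1)) = 0
        rw [h1, mul_zero]
    · intro h1
      exact absurd (Finset.mem_univ _) h1

theorem s_jk : Pool.Agent.Helper19.SQ.S_JK := by
  intro N l q h x hx b hb
  by_contra hne
  have hclaim : ∀ k, k ≤ N → ∀ b, x b ≠ 0 → ∀ i j, i < j → j ≤ k → b.1 i j = l - 1 := by
    intro k
    induction k with
    | zero =>
      intro _ b _ i j hij hj
      omega
    | succ k ih =>
      intro hk b hb' i j hij hj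
      rcases Nat.lt_or_ge k j with h1 | h1
      · have h2 : j = k + 1 := by omega
        subst h2
        exact step h x hx k (by omega) (ih (by omega)) b hb' i (by omega)
      · exact ih (by omega) b hb' i j hij h1
  apply hb
  funext i j
  unfold topE
  split_ifs with h1
  · exact hclaim N le_rfl b hne i j h1.1 h1.2
  · exact (b.2 i j).2 h1

end Pool.Agent.Helper8.SQ
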