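import Mathlib
import Pool.Agent.Helper19.SQ.GoalsC

/-!
Packet SQ-CNT (MP_bb32d1_al): from `AbsData` and `LoopA` to `Cnt`.
-/

set_option autoImplicit false

namespace Pool.Agent.Helper8.SQ

open Pool.Agent.Helper19.SQ

section

variable {l n : ℕ} [NeZero l]

theorem al_eq (c : ZMod l) : al c = sg c - sg (c + 1) := rfl

theorem sg_self (c : ZMod l) : sg c c = 1 := by simp [sg]

theorem sg_ne {c x : ZMod l} (h : x ≠ c) : sg c x = 0 := by simp [sg, h]

theorem sum_sg (c : ZMod l) : ∑ x, sg c x = 1 := by simp [sg]

/-- if `m` is not a type but `m + sg a - sg b` is one, then `m a = -1`. -/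
theorem neg_one_of_not {a b : ZMod l} {m : ZMod l → ℤ} (hm : ¬ IsTy n m)
    (hm' : IsTy n (m + sg a - sg b)) : m a = -1 := by
  have hsum : ∑ c, m c = (n : ℤ) := by
    have h1 := hm'.2
    simp only [Pi.add_apply, Pi.sub_apply, Finset.sum_add_distrib, Finset.sum_sub_distrib,
      sum_sg] at h1
    omega
  have hex : ∃ x, m x < 0 := by
    by_contra hcon
    apply hm
    refine ⟨fun c => ?_, hsum⟩
    by_contra h2
    exact hcon ⟨c, by omega⟩
  obtain ⟨x, hx⟩ := hex
  have h1 := hm'.1 x
  simp only [Pi.add_apply, Pi.sub_apply] at h1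
  have hb : 0 ≤ sg b x := by
    by_cases h : x = b
    · rw [h, sg_self]; norm_num
    · rw [sg_ne h]
  by_cases hxa : x = a
  · rw [hxa, sg_self] at h1
    rw [hxa] at hx hb
    omega
  · rw [sg_ne hxa] at h1
    omega

end

section

open Classical in
/-- the extension of `ch` by zero -/
noncomputable def chx {l : ℕ} [NeZero l] (n : ℕ) {T : Type} [AddCommGroup T]
    (ch : (ZMod l → ℤ) → T) (m : ZMod l → ℤ) : T :=
  if IsTy n m then ch m else 0

theorem chx_pos {l : ℕ} [NeZero l] {n : ℕ} {T : Type} [AddCommGroup T]
    {ch : (ZMod l → ℤ) → T} {m : ZMod l → ℤ} (h : IsTy n m) : chx n ch m = ch m := by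
  rw [chx, if_pos h]

theorem chx_neg {l : ℕ} [NeZero l] {n : ℕ} {T : Type} [AddCommGroup T]
    {ch : (ZMod l → ℤ) → T} {m : ZMod l → ℤ} (h : ¬ IsTy n m) : chx n ch m = 0 := by
  rw [chx, if_neg h]

variable {l n : ℕ} [NeZero l] {T : Type} [AddCommGroup T] [Module ℂ T]

theorem E_chx (D : AbsData l n T) (c : ZMod l) (r : ℕ) (m : ZMod l → ℤ) :
    D.E c r (chx n D.ch m) =
      (if r = 0 then (m c : ℂ) + 1 else 0) • chx n D.ch (m + sg c - sg (c + 1)) := by
  have hal : m + sg c - sg (c + 1) = m + al c := by rw [al_eq, add_sub_assoc]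
  by_cases hm : IsTy n m
  · rw [chx_pos hm]
    by_cases hm' : IsTy n (m + al c)
    · rw [hal, chx_pos hm']
      by_cases hr : r = 0
      · rw [if_pos hr, hr]; exact D.ch_E c m hm hm'
      · rw [if_neg hr, zero_smul]; exact D.ch_E0 c r m hm hr
    · rw [hal, chx_neg hm', smul_zero]
      have h1 := D.E_gr c r m _ (D.ch_mem m hm)
      rw [D.bot _ hm'] at h1
      exact (Submodule.mem_bot ℂ).1 h1
  · rw [chx_neg hm, map_zero]
    by_cases hm' : IsTy n (m + sg c - sg (c + 1))
    · have h1 := neg_one_of_not hm hm'
      rw [h1]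
      by_cases hr : r = 0
      · rw [if_pos hr]; push_cast; rw [neg_add_cancel, zero_smul]
      · rw [if_neg hr, zero_smul]
    · rw [chx_neg hm', smul_zero]

theorem F_chx (D : AbsData l n T) (c : ZMod l) (r : ℕ) (m : ZMod l → ℤ) :
    D.F c r (chx n D.ch m) =
      (if r = 0 then (m (c + 1) : ℂ) + 1 else 0) • chx n D.ch (m + sg (c + 1) - sg c) := by
  have hal : m + sg (c + 1) - sg c = m - al c := by rw [al_eq]; abel
  by_cases hm : IsTy n m
  · rw [chx_pos hm]
    by_cases hm' : IsTy n (m - al c)
    · rw [hal, chx_pos hm']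
      by_cases hr : r = 0
      · rw [if_pos hr, hr]; exact D.ch_F c m hm hm'
      · rw [if_neg hr, zero_smul]; exact D.ch_F0 c r m hm hr
    · rw [hal, chx_neg hm', smul_zero]
      have h1 := D.F_gr c r m _ (D.ch_mem m hm)
      rw [D.bot _ hm'] at h1
      exact (Submodule.mem_bot ℂ).1 h1
  · rw [chx_neg hm, map_zero]
    by_cases hm' : IsTy n (m + sg (c + 1) - sg c)
    · have h1 := neg_one_of_not hm hm'
      rw [h1]
      by_cases hr : r = 0
      · rw [if_pos hr]; push_cast; rw [neg_add_cancel, zero_smul]
      · rw [if_neg hr, zero_smul]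
    · rw [chx_neg hm', smul_zero]

/-- the conversion of letters -/
def conv {l : ℕ} (a : Lt l) : Lt4 l :=
  if a.1 then (if a.2.1 = -1 then (-1, 0, a.2.2, -1) else (a.2.1, a.2.1 + 1, a.2.2, 0))
  else (if a.2.1 = -1 then (0, -1, a.2.2, 1) else (a.2.1 + 1, a.2.1, a.2.2, 0))

theorem zero_eq : (0 : ZMod l) = -1 + 1 := by ring

theorem conv_wt (a : Lt l) : sg (conv a).1 - sg (conv a).2.1 = ltWt a := by
  obtain ⟨t, c, r⟩ := a
  cases t with
  | true =>
    by_cases hc : c = -1
    · subst hc
      simp only [conv, ltWt, if_true, al_eq]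
      rw [← zero_eq]
    · simp only [conv, ltWt, if_true, al_eq, if_neg hc]
  | false =>
    by_cases hc : c = -1
    · subst hc
      simp only [conv, ltWt, al_eq, Bool.false_eq_true, if_false, if_true]
      rw [← zero_eq]
      abel
    · simp only [conv, ltWt, al_eq, if_neg hc, Bool.false_eq_true, if_false]
      abel

theorem conv_op (D : AbsData l n T) (L : LoopA D) (a : Lt l) :
    L.e (conv a).1 (conv a).2.1 (conv a).2.2.1 (conv a).2.2.2 = ltOp D.E D.F a := by
  obtain ⟨t, c, r⟩ := a
  cases t with
  | true =>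
    by_cases hc : c = -1
    · subst hc
      simp only [conv, ltOp, if_true]
      exact L.Ez_eq r
    · simp only [conv, ltOp, if_true, if_neg hc]
      exact L.E_eq c r hc
  | false =>
    by_cases hc : c = -1
    · subst hc
      simp only [conv, ltOp, Bool.false_eq_true, if_false, if_true]
      exact L.Fz_eq r
    · simp only [conv, ltOp, if_neg hc, Bool.false_eq_true, if_false]
      exact L.F_eq c r hc

theorem conv_ne (hl : 3 ≤ l) (a : Lt l) : (conv a).1 ≠ (conv a).2.1 := by
  have h1 : (1 : ZMod l) ≠ 0 := by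
    have : Fact (1 < l) := ⟨by omega⟩
    exact one_ne_zero
  have h2 : ∀ c : ZMod l, c ≠ c + 1 := by
    intro c h
    exact h1 (by simpa using h.symm)
  have h3 : (-1 : ZMod l) ≠ 0 := neg_ne_zero.2 h1
  obtain ⟨t, c, r⟩ := a
  cases t with
  | true =>
    by_cases hc : c = -1
    · subst hc
      simp only [conv, if_true]
      exact h3
    · simp only [conv, if_true, if_neg hc]
      exact h2 c
  | false =>
    by_cases hc : c = -1
    · subst hc
      simp only [conv, Bool.false_eq_true, if_false, if_true]
      exact h3.symm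
    · simp only [conv, if_neg hc, Bool.false_eq_true, if_false]
      exact (h2 c).symm

theorem s_cnt (hCLP : S_CLP) : S_CNT := by
  intro l n _ T _ _ D L hl
  have hgr : ∀ a b r s, a ≠ b → ∀ m, ∀ x ∈ D.gr m, L.e a b r s x ∈ D.gr (m + sg a - sg b) := by
    apply hCLP l hl (fun a b r s => ∀ m, ∀ x ∈ D.gr m, L.e a b r s x ∈ D.gr (m + sg a - sg b))
    · intro a b c r s r' s' hab hbc hac h1 h2 m x hx
      have h3 := L.mul a b c r s r' s' hab hbc hac
      have h4 : L.e a c (r + r') (s + s') x
          = L.e a b r s (L.e b c r' s' x) - L.e b c r' s' (L.e a b r s x) := by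
        rw [← h3]; rfl
      rw [h4]
      have e1 : m + sg b - sg c + sg a - sg b = m + sg a - sg c := by abel
      have e2 : m + sg a - sg b + sg b - sg c = m + sg a - sg c := by abel
      apply Submodule.sub_mem
      · rw [← e1]; exact h1 _ _ (h2 m x hx)
      · rw [← e2]; exact h2 _ _ (h1 m x hx)
    · intro c r hc
      constructor
      · intro m x hx
        rw [L.E_eq c r hc, add_sub_assoc, ← al_eq]
        exact D.E_gr c r m x hx
      · intro m x hx
        rw [L.F_eq c r hc]
        have e1 : m + sg (c + 1) - sg c = m - al c := by rw [al_eq]; abel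
        rw [e1]
        exact D.F_gr c r m x hx
    · intro r
      constructor
      · intro m x hx
        rw [L.Ez_eq r]
        have e1 : m + sg (-1 : ZMod l) - sg 0 = m + al (-1) := by
          rw [al_eq, ← zero_eq, add_sub_assoc]
        rw [e1]
        exact D.E_gr (-1) r m x hx
      · intro m x hx
        rw [L.Fz_eq r]
        have e1 : m + sg (0 : ZMod l) - sg (-1) = m - al (-1) := by
          rw [al_eq, ← zero_eq]; abel
        rw [e1]
        exact D.F_gr (-1) r m x hx
  have hch : ∀ a b r s, a ≠ b → ∀ m, L.e a b r s (chx n D.ch m) =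
      (if r = 0 then (m a : ℂ) + 1 else 0) • chx n D.ch (m + sg a - sg b) := by
    apply hCLP l hl (fun a b r s => ∀ m, L.e a b r s (chx n D.ch m) =
      (if r = 0 then (m a : ℂ) + 1 else 0) • chx n D.ch (m + sg a - sg b))
    · intro a b c r s r' s' hab hbc hac h1 h2 m
      have h3 := L.mul a b c r s r' s' hab hbc hac
      have h4 : L.e a c (r + r') (s + s') (chx n D.ch m)
          = L.e a b r s (L.e b c r' s' (chx n D.ch m))
            - L.e b c r' s' (L.e a b r s (chx n D.ch m)) := by
        rw [← h3]; rfl
      have e1 : m + sg b - sg c + sg a - sg b = m + sg a - sg c := by abel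
      have e2 : m + sg a - sg b + sg b - sg c = m + sg a - sg c := by abel
      have v1 : (m + sg b - sg c) a = m a := by
        simp only [Pi.add_apply, Pi.sub_apply]
        rw [sg_ne hab, sg_ne hac]; ring
      have v2 : (m + sg a - sg b) b = m b - 1 := by
        simp only [Pi.add_apply, Pi.sub_apply]
        rw [sg_ne hab.symm, sg_self]; ring
      rw [h4, h2, h1, map_smul, map_smul, h1, h2, e1, e2, v1, v2, smul_smul, smul_smul,
        ← sub_smul]
      congr 1
      by_cases hr : r = 0
      · by_cases hr' : r' = 0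
        · have hrr : r + r' = 0 := by omega
          simp only [hr, hr', if_true, add_zero]
          push_cast
          ring
        · have hrr : r + r' ≠ 0 := by omega
          simp only [if_neg hrr, if_neg hr', zero_mul, mul_zero, sub_zero]
      · have hrr : r + r' ≠ 0 := by omega
        simp only [if_neg hrr, if_neg hr, zero_mul, mul_zero, sub_zero]
    · intro c r hc
      constructor
      · intro m
        rw [L.E_eq c r hc]
        exact E_chx D c r m
      · intro m
        rw [L.F_eq c r hc]
        exact F_chx D c r m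
    · intro r
      constructor
      · intro m
        rw [L.Ez_eq r]
        have h1 := E_chx D (-1) r m
        rw [← zero_eq] at h1
        exact h1
      · intro m
        rw [L.Fz_eq r]
        have h1 := F_chx D (-1) r m
        rw [← zero_eq] at h1
        exact h1
  refine ⟨{ gr := D.gr, e := L.e, ch := D.ch, fd := D.fd, top := D.top, bot := D.bot,
            mul := L.mul, com := L.com, e_gr := hgr, nondeg := ?_, one := D.one,
            ch_mem := D.ch_mem, ch_ne := D.ch_ne, e_ch := ?_ }, rfl, rfl, rfl⟩
  · intro m x hx h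
    apply D.nondeg m x hx
    intro w c hw
    have h1 : eWt (w.map conv) = wdWt w := by
      rw [eWt, wdWt, List.map_map]
      congr 1
      apply List.map_congr_left
      intro a _
      exact conv_wt a
    have h2 : eOp L.e (w.map conv) = wdOp D.E D.F w := by
      rw [eOp, wdOp, List.map_map]
      congr 1
      apply List.map_congr_left
      intro a _
      exact conv_op D L a
    rw [← h2]
    apply h (w.map conv) c
    · intro u hu
      obtain ⟨a, _, rfl⟩ := List.mem_map.1 hu
      exact conv_ne hl a
    · rw [h1]; exact hw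
  · intro a b r s m hab hm hm'
    have h1 := hch a b r s hab m
    rw [chx_pos hm, chx_pos hm'] at h1
    exact h1

end

end Pool.Agent.Helper8.SQ
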