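import Pool.Agent.Helper39.SQ.Goals

/-!
Packet SQ-HUB: hubs in the real space from hubs in the integer lattice.
-/

set_option autoImplicit false

namespace Helper8.SQ.HUB

open Pool.Agent.Helper39.Net Pool.Agent.Helper71.SN Pool.Agent.Helper39.SQ

theorem near {r t : ℝ} (hr : 0 < r) : |t - r * (round (t / r) : ℝ)| ≤ r / 2 := by
  have h1 := abs_sub_round (t / r)
  have h2 : t - r * (round (t / r) : ℝ) = r * (t / r - (round (t / r) : ℝ)) := by
    field_simp
  rw [h2, abs_mul, abs_of_pos hr]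
  calc r * |t / r - (round (t / r) : ℝ)| ≤ r * (1 / 2) := mul_le_mul_of_nonneg_left h1 hr.le
    _ = r / 2 := by ring

theorem thm : G_HUBZ → G_HUB := by
  classical
  intro hz k q hq
  obtain ⟨H, hH1, hH2⟩ := hz k q hq
  refine ⟨fun r x => (H (fun i => round (x i / r))).image (fun v i => r * (v i : ℝ)), ?_, ?_⟩
  · intro r x
    exact Finset.card_image_le.trans (hH1 _)
  · intro r hr x y h1 h2
    obtain ⟨X, hX⟩ : ∃ X : Fin (k + 1) → ℤ, X = fun i => round (x i / r) := ⟨_, rfl⟩
    obtain ⟨Y, hY⟩ : ∃ Y : Fin (k + 1) → ℤ, Y = fun i => round (y i / r) := ⟨_, rfl⟩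
    have hx : ∀ i, |x i - r * (X i : ℝ)| ≤ r / 2 := by
      intro i
      rw [hX]
      exact near hr
    have hy : ∀ i, |y i - r * (Y i : ℝ)| ≤ r / 2 := by
      intro i
      rw [hY]
      exact near hr
    obtain ⟨j, -, hj⟩ := Finset.exists_max_image Finset.univ (fun i => |X i - Y i|)
      Finset.univ_nonempty
    have hj' : ∀ i, |X i - Y i| ≤ |X j - Y j| := fun i => hj i (Finset.mem_univ i)
    have hcast : ∀ i, |r * (X i : ℝ) - r * (Y i : ℝ)| = r * ((|X i - Y i| : ℤ) : ℝ) := by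
      intro i
      rw [← mul_sub, abs_mul, abs_of_pos hr]
      push_cast
      rfl
    obtain ⟨D, hD⟩ : ∃ D : ℤ, D = |X j - Y j| := ⟨_, rfl⟩
    have hD0 : (0 : ℤ) ≤ D := by
      rw [hD]
      exact abs_nonneg _
    have hDr0 : (0 : ℝ) ≤ (D : ℝ) := by exact_mod_cast hD0
    have hρ0 : 0 ≤ dInf x y := norm_nonneg _
    have hup : dInf x y ≤ r * D + r := by
      unfold dInf
      rw [pi_norm_le_iff_of_nonneg (by positivity)]
      intro i
      have e1 := hx i
      have e2 := hy i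
      have e3 := hcast i
      have e4 : r * ((|X i - Y i| : ℤ) : ℝ) ≤ r * (D : ℝ) := by
        refine mul_le_mul_of_nonneg_left ?_ hr.le
        rw [hD]
        exact_mod_cast hj' i
      rw [Pi.sub_apply, Real.norm_eq_abs]
      have e5 : x i - y i = (x i - r * (X i : ℝ)) + (r * (X i : ℝ) - r * (Y i : ℝ)) -
        (y i - r * (Y i : ℝ)) := by ring
      rw [e5]
      have e6 := abs_sub ((x i - r * (X i : ℝ)) + (r * (X i : ℝ) - r * (Y i : ℝ)))
        (y i - r * (Y i : ℝ))
      have e7 := abs_add_le (x i - r * (X i : ℝ)) (r * (X i : ℝ) - r * (Y i : ℝ))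
      linarith
    have hlo : r * D ≤ dInf x y + r := by
      have e1 := hx j
      have e2 := hy j
      have e3 := hcast j
      have e4 : |x j - y j| ≤ dInf x y := by
        unfold dInf
        have := norm_le_pi_norm (x - y) j
        rwa [Pi.sub_apply, Real.norm_eq_abs] at this
      rw [← hD] at e3
      rw [← e3]
      have e5 : r * (X j : ℝ) - r * (Y j : ℝ) = (x j - y j) - (x j - r * (X j : ℝ)) +
        (y j - r * (Y j : ℝ)) := by ring
      rw [e5]
      have e6 := abs_add_le ((x j - y j) - (x j - r * (X j : ℝ))) (y j - r * (Y j : ℝ))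
      have e7 := abs_sub (x j - y j) (x j - r * (X j : ℝ))
      linarith
    have hq1 : (4 : ℤ) ≤ 2 ^ (q - 1) := by
      calc (4 : ℤ) = 2 ^ 2 := by norm_num
        _ ≤ 2 ^ (q - 1) := pow_le_pow_right₀ (by norm_num) (by omega)
    have hq2 : (2 : ℤ) ^ q = 2 * 2 ^ (q - 1) := by
      rw [← pow_succ']
      congr 1
      omega
    have hlow : (2 : ℤ) ^ (q - 1) ≤ D := by
      have e1 : (2 : ℝ) ^ q * r ≤ (D + 1) * r := by linarith
      have e2 : (2 : ℝ) ^ q ≤ D + 1 := le_of_mul_le_mul_right e1 hr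
      have e3 : (2 : ℤ) ^ q ≤ D + 1 := by exact_mod_cast e2
      omega
    have hhigh : D ≤ (2 : ℤ) ^ (q + 4) := by
      have e1 : (D : ℝ) * r ≤ (2 ^ (q + 3) + 1) * r := by linarith
      have e2 : (D : ℝ) ≤ 2 ^ (q + 3) + 1 := le_of_mul_le_mul_right e1 hr
      have e3 : D ≤ (2 : ℤ) ^ (q + 3) + 1 := by exact_mod_cast e2
      have e4 : (2 : ℤ) ^ (q + 4) = 2 * 2 ^ (q + 3) := by ring
      have e5 : (1 : ℤ) ≤ 2 ^ (q + 3) := one_le_pow₀ (by norm_num)
      omega
    obtain ⟨v, hv1, hv2, τ, τ', hs, ht1, ht2⟩ := hH2 X Y j hj' (hD ▸ hlow) (hD ▸ hhigh)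
    have hτ : (0 : ℝ) ≤ (τ : ℝ) := by
      exact_mod_cast (abs_nonneg _).trans (ht1 j)
    have hτ' : (0 : ℝ) ≤ (τ' : ℝ) := by
      exact_mod_cast (abs_nonneg _).trans (ht2 j)
    have hsum : (τ : ℝ) + (τ' : ℝ) = (D : ℝ) := by
      rw [hD]
      exact_mod_cast hs
    refine ⟨fun i => r * (v i : ℝ), ?_, ?_, ?_⟩
    · rw [hX] at hv1
      exact Finset.mem_image_of_mem _ hv1
    · rw [hY] at hv2
      exact Finset.mem_image_of_mem _ hv2
    · have f1 : dInf x (fun i => r * (v i : ℝ)) ≤ r / 2 + r * τ := by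
        unfold dInf
        rw [pi_norm_le_iff_of_nonneg (by positivity)]
        intro i
        rw [Pi.sub_apply, Real.norm_eq_abs]
        have e1 := hx i
        have e2 : |r * (X i : ℝ) - r * (v i : ℝ)| ≤ r * τ := by
          rw [← mul_sub, abs_mul, abs_of_pos hr]
          refine mul_le_mul_of_nonneg_left ?_ hr.le
          exact_mod_cast ht1 i
        have e3 : x i - r * (v i : ℝ) = (x i - r * (X i : ℝ)) + (r * (X i : ℝ) - r * (v i : ℝ)) := by
          ring
        rw [e3]
        have e4 := abs_add_le (x i - r * (X i : ℝ)) (r * (X i : ℝ) - r * (v i : ℝ))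
        linarith
      have f2 : dInf (fun i => r * (v i : ℝ)) y ≤ r / 2 + r * τ' := by
        unfold dInf
        rw [pi_norm_le_iff_of_nonneg (by positivity)]
        intro i
        rw [Pi.sub_apply, Real.norm_eq_abs]
        have e1 := hy i
        have e2 : |r * (v i : ℝ) - r * (Y i : ℝ)| ≤ r * τ' := by
          rw [← mul_sub, abs_mul, abs_of_pos hr]
          refine mul_le_mul_of_nonneg_left ?_ hr.le
          exact_mod_cast ht2 i
        have e3 : r * (v i : ℝ) - y i = (r * (v i : ℝ) - r * (Y i : ℝ)) - (y i - r * (Y i : ℝ)) := by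
          ring
        rw [e3]
        have e4 := abs_sub (r * (v i : ℝ) - r * (Y i : ℝ)) (y i - r * (Y i : ℝ))
        linarith
      have f3 : r * (τ : ℝ) + r * (τ' : ℝ) = r * D := by
        rw [← mul_add, hsum]
      linarith

end Helper8.SQ.HUB
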