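import Pool.Agent.Helper84.SQ.GoalsC

/-!
# Project SQ (MP_ed7369_lc), packet PTB: the solver runs in polynomial time
-/

set_option autoImplicit false

namespace Pool.Agent.Helper8.SQ

open Pool.Agent.Helper81.CC Pool.Agent.Bin
open Pool.Agent.Helper92.FR (Qn Cst dot cut cini cen)
open Pool.Agent.Helper84.SQ

variable {α : Type} [ToData α]

@[fun_prop] theorem PT_unitR {d i : α → ℕ} {s : α → Zn} (hd : PolyTime d) (hi : PolyTime i)
    (hs : PolyTime s) : PolyTime (fun a => unitR (d a) (i a) (s a)) := by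
  unfold unitR Zn.zero
  fun_prop

@[fun_prop] theorem PT_boxR {d : α → ℕ} {b : α → List Zn × List Zn} (hd : PolyTime d)
    (hb : PolyTime b) : PolyTime (fun a => boxR (d a) (b a)) := by
  unfold boxR Zn.one Zn.zero
  fun_prop

@[fun_prop] theorem PT_setl {l : α → List Zn} {i : α → ℕ} {x : α → Zn} (hl : PolyTime l)
    (hi : PolyTime i) (hx : PolyTime x) : PolyTime (fun a => setl (l a) (i a) (x a)) := by
  unfold setl Zn.zero
  fun_prop

@[fun_prop] theorem PT_hasv {o : α → Option Zn} {v : α → Zn} (ho : PolyTime o)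
    (hv : PolyTime v) : PolyTime (fun a => hasv (o a) (v a)) := by
  unfold hasv
  fun_prop

@[fun_prop] theorem PT_lowb {b : α → List Zn × List Zn} {i : α → ℕ} (hb : PolyTime b)
    (hi : PolyTime i) : PolyTime (fun a => lowb (b a) (i a)) := by
  unfold lowb Zn.zero
  fun_prop

@[fun_prop] theorem PT_uppb {b : α → List Zn × List Zn} {i : α → ℕ} (hb : PolyTime b)
    (hi : PolyTime i) : PolyTime (fun a => uppb (b a) (i a)) := by
  unfold uppb Zn.zero
  fun_prop

@[fun_prop] theorem PT_eobj {d i : α → ℕ} {s : α → Zn} (hd : PolyTime d) (hi : PolyTime i)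
    (hs : PolyTime s) : PolyTime (fun a => eobj (d a) (i a) (s a)) := by
  unfold eobj
  fun_prop

/-- The lists have at most `L` entries, all of them of size at most `C`. -/
def Iv (L C : ℕ) (b : List Zn × List Zn) : Prop :=
  (b.1.length ≤ L ∧ ∀ z ∈ b.1, sz z ≤ C) ∧ b.2.length ≤ L ∧ ∀ z ∈ b.2, sz z ≤ C

theorem sz_list_le {β : Type} [ToData β] (c : ℕ) : ∀ l : List β, (∀ x ∈ l, sz x ≤ c) →
    sz l ≤ (c + 1) * l.length + 1
  | [], _ => by simp
  | b :: l, h => by
    have h1 := sz_list_le c l fun x hx => h x (List.mem_cons_of_mem _ hx)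
    have h2 := h b List.mem_cons_self
    simp only [sz_cons, List.length_cons]
    nlinarith

theorem Iv.sz_le {L C : ℕ} {b : List Zn × List Zn} (h : Iv L C b) :
    sz b ≤ ((C + 1) * L + 1) + ((C + 1) * L + 1) + 1 := by
  obtain ⟨⟨h1, h2⟩, h3, h4⟩ := h
  have e1 := sz_list_le C b.1 h2
  have e2 := sz_list_le C b.2 h4
  have e3 : (C + 1) * b.1.length ≤ (C + 1) * L := Nat.mul_le_mul_left _ h1
  have e4 : (C + 1) * b.2.length ≤ (C + 1) * L := Nat.mul_le_mul_left _ h3
  obtain ⟨b1, b2⟩ := b
  rw [sz_pair]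
  simp only at e1 e2 e3 e4
  omega

theorem sz_getD_le {C : ℕ} {l : List Zn} (h : ∀ z ∈ l, sz z ≤ C) (h0 : sz Zn.zero ≤ C) (i : ℕ) :
    sz (l.getD i Zn.zero) ≤ C := by
  by_cases hi : i < l.length
  · rw [List.getD_eq_getElem _ _ hi]
    exact h _ (List.getElem_mem hi)
  · rw [List.getD_eq_default _ _ (by omega)]
    exact h0

theorem setl_iv {L C : ℕ} {l : List Zn} (h : l.length ≤ L ∧ ∀ z ∈ l, sz z ≤ C)
    (h0 : sz Zn.zero ≤ C) (i : ℕ) {x : Zn} (hx : sz x ≤ C) :
    (setl l i x).length ≤ L ∧ ∀ z ∈ setl l i x, sz z ≤ C := by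
  refine ⟨by simpa [setl] using h.1, ?_⟩
  intro z hz
  unfold setl at hz
  rw [List.mem_map] at hz
  obtain ⟨j, -, rfl⟩ := hz
  split_ifs
  · exact hx
  · exact sz_getD_le h.2 h0 j

theorem redS_iv {L C N d : ℕ} {R : List Row} {F : Obj} {v : Zn} {b : List Zn × List Zn} {i : ℕ}
    (h : Iv L C b) (h0 : sz Zn.zero ≤ C) : Iv L C (redS N d R F v b i) := by
  unfold redS
  split_ifs
  · exact ⟨h.1, setl_iv h.2 h0 i (sz_getD_le h.1.2 h0 i)⟩
  · exact ⟨setl_iv h.1 h0 i (sz_getD_le h.2.2 h0 i), h.2⟩

theorem PT_redS (hA : PtaStmt) {N d i : α → ℕ} {R : α → List Row} {F : α → Obj} {v : α → Zn}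
    {b : α → List Zn × List Zn} (hN : PolyTime N) (hd : PolyTime d) (hR : PolyTime R)
    (hF : PolyTime F) (hv : PolyTime v) (hb : PolyTime b) (hi : PolyTime i) :
    PolyTime (fun a => redS (N a) (d a) (R a) (F a) (v a) (b a) (i a)) := by
  have h1 : PolyTime (fun a => optv (N a) (d a) (R a ++ boxR (d a) (lowb (b a) (i a))) (F a)) :=
    (hA α N d (fun _ => 0) (fun a => R a ++ boxR (d a) (lowb (b a) (i a))) F hN hd (by fun_prop)
      (by fun_prop) hF).2.2
  unfold redS
  exact PolyTime.ite (PT_hasv h1 hv) (by fun_prop) (by fun_prop)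

theorem PT_solve (hA : PtaStmt) {N d : α → ℕ} {R : α → List Row} {F : α → Obj}
    (hN : PolyTime N) (hd : PolyTime d) (hR : PolyTime R) (hF : PolyTime F) :
    PolyTime (fun a => solve (N a) (d a) (R a) (F a)) := by
  have hbst : PolyTime (fun a => bst (N a) (d a) (R a) (F a)) :=
    (hA α N d (fun _ => 0) R F hN hd (by fun_prop) hR hF).2.1
  have p1 : PolyTime (fun z : α × List Qn => z.1) := by fun_prop
  have hN1 : PolyTime (fun z : α × List Qn => N z.1) := PolyTime.comp hN p1
  have hd1 : PolyTime (fun z : α × List Qn => d z.1) := PolyTime.comp hd p1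
  have hR1 : PolyTime (fun z : α × List Qn => R z.1) := PolyTime.comp hR p1
  have hF1 : PolyTime (fun z : α × List Qn => F z.1) := PolyTime.comp hF p1
  have hs0 : PolyTime (fun z : α × List Qn =>
      ((z.2.map flz, z.2.map fun y => Zn.add (flz y) Zn.one) : List Zn × List Zn)) := by
    unfold Zn.one
    fun_prop
  have hfold : PolyTime (fun z : α × List Qn =>
      (List.range (d z.1)).foldl (redS (N z.1) (d z.1) (R z.1) (F z.1) (rnd (fh (F z.1) z.2)))
        ((z.2.map flz, z.2.map fun y => Zn.add (flz y) Zn.one) : List Zn × List Zn)) := by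
    have hC : PBd (fun z : α × List Qn =>
        sz ((z.2.map flz, z.2.map fun y => Zn.add (flz y) Zn.one) : List Zn × List Zn) +
          sz Zn.zero) := hs0.bd.add (PBd.const _)
    have hL : PBd (fun z : α × List Qn =>
        sz ((z.2.map flz, z.2.map fun y => Zn.add (flz y) Zn.one) : List Zn × List Zn)) := hs0.bd
    refine PolyTime.foldl_inv (l := fun z : α × List Qn => List.range (d z.1))
      (s0 := fun z : α × List Qn =>
        ((z.2.map flz, z.2.map fun y => Zn.add (flz y) Zn.one) : List Zn × List Zn))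
      (step := fun z s i => redS (N z.1) (d z.1) (R z.1) (F z.1) (rnd (fh (F z.1) z.2)) s i)
      (PolyTime.range hd1) hs0 ?_
      (I := fun z s => Iv
        (sz ((z.2.map flz, z.2.map fun y => Zn.add (flz y) Zn.one) : List Zn × List Zn))
        (sz ((z.2.map flz, z.2.map fun y => Zn.add (flz y) Zn.one) : List Zn × List Zn) +
          sz Zn.zero) s)
      (((((hC.add (PBd.const 1)).mul hL).add (PBd.const 1)).add
        (((hC.add (PBd.const 1)).mul hL).add (PBd.const 1))).add (PBd.const 1)) ?_ ?_ ?_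
    · have p2 : PolyTime (fun z : (α × List Qn) × (List Zn × List Zn) × ℕ => z.1.1) := by
        fun_prop
      exact PT_redS hA (PolyTime.comp hN p2) (PolyTime.comp hd p2) (PolyTime.comp hR p2)
        (PolyTime.comp hF p2) (PT_rnd (PT_fh (PolyTime.comp hF p2) (by fun_prop)))
        (by fun_prop) (by fun_prop)
    · intro z
      set s0 : List Zn × List Zn := (z.2.map flz, z.2.map fun y => Zn.add (flz y) Zn.one)
        with hs0d
      have e : sz s0 = sz s0.1 + sz s0.2 + 1 := sz_pair _ _
      refine ⟨⟨?_, ?_⟩, ?_, ?_⟩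
      · have := length_le_sz s0.1
        omega
      · intro x hx
        have := sz_le_of_mem hx
        omega
      · have := length_le_sz s0.2
        omega
      · intro x hx
        have := sz_le_of_mem hx
        omega
    · intro z s i _ hI
      exact redS_iv hI (Nat.le_add_left _ _)
    · intro z s hI
      exact hI.sz_le
  unfold solve
  refine PolyTime.option_map (o := fun a => bst (N a) (d a) (R a) (F a))
    (g := fun a x => ((List.range (d a)).foldl (redS (N a) (d a) (R a) (F a) (rnd (fh (F a) x)))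
      (x.map flz, x.map fun y => Zn.add (flz y) Zn.one)).1) hbst ?_
  exact PolyTime.fst hfold

/-- PTB. -/
theorem ptb (hA : PtaStmt) : PtbStmt := by
  intro α _ N d i R F hN hd hi hR hF
  refine ⟨PT_solve hA hN hd hR hF, ?_, ?_⟩
  · have h1 : PolyTime (fun a => solve (N a) (d a) (R a) (eobj (d a) (i a) Zn.one)) :=
      PT_solve hA hN hd hR (PT_eobj hd hi (by fun_prop))
    unfold cmin
    exact PolyTime.option_map h1 (PolyTime.getD (by fun_prop) (by fun_prop) (by fun_prop))
  · have h1 : PolyTime (fun a => solve (N a) (d a) (R a) (eobj (d a) (i a) (Zn.neg Zn.one))) :=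
      PT_solve hA hN hd hR (PT_eobj hd hi (by fun_prop))
    unfold cmax
    exact PolyTime.option_map h1 (PolyTime.getD (by fun_prop) (by fun_prop) (by fun_prop))

end Pool.Agent.Helper8.SQ
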