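import Pool.Agent.Helper84.SQ.GoalsD
import Pool.Agent.Helper22.SQ.BXO
import Pool.Agent.Helper32.SQ.CDB

/-!
# Project SQ (MP_ed7369_lc), packet UTB: the test `unb2`
-/

set_option autoImplicit false

namespace Pool.Agent.Helper8.SQ

open Pool.Agent.Helper81.CC Pool.Agent.Bin
open Pool.Agent.Helper92.FR (Qn Cst dot cut cini cen lv)
open Pool.Agent.Helper45.SQP (Inst TUInst Correct Code Output intCode)
open Pool.Agent.Helper84.SQ
open Pool.Agent.Helper22.SQ (length_unitR lz_unitR Unit1 ok_append unit1_box unit1_fix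
  mem_sol_append mem_sol_box mem_sol_fix)
open Pool.Agent.Helper32.SQ (code2_length val_zof mem_vin vin_lt)

theorem utb_zip_sum {A B : Type} (g : A → B → ℤ) (a : A) (b : B) :
    ∀ (d : ℕ) (G : List A) (x : List B), G.length = d → x.length = d →
      (List.zipWith g G x).sum = ∑ j : Fin d, g (G.getD j a) (x.getD j b) := by
  intro d
  induction d with
  | zero =>
    intro G x hG hx
    rw [List.length_eq_zero_iff] at hG hx
    subst hG hx
    simp
  | succ d ih =>
    intro G x hG hx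
    match G, x, hG, hx with
    | c :: G, y :: x, hG, hx =>
      rw [List.zipWith_cons_cons, List.sum_cons, Fin.sum_univ_succ,
        ih G x (by simpa using hG) (by simpa using hx)]
      simp

theorem utb_val_gv (d : ℕ) (G : List (Zn × Zn)) (x : List Zn) (hGl : G.length = d)
    (hx : x.length = d) : (Zn.val (gv G x) : ℝ) = gq (kG d G) (hG d G) (lz d x) := by
  have h1 : Zn.val (gv G x) =
      (List.zipWith (fun (c : Zn × Zn) (y : Zn) =>
        Zn.val c.1 * (Zn.val y) ^ 2 + Zn.val c.2 * Zn.val y) G x).sum := by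
    unfold gv
    rw [Zn.val_sum, List.map_zipWith]
    congr 2
    funext c y
    rw [Zn.val_add, Zn.val_mul, Zn.val_mul, Zn.val_mul]
    ring
  rw [h1, utb_zip_sum _ (Zn.zero, Zn.zero) Zn.zero d G x hGl hx]
  unfold gq kG hG lz
  push_cast
  rfl

/-- The rows of the code. -/
theorem utb_mem_rows (I : Inst) (r : Row) : r ∈ rowsC I.code ↔
    ∃ i : Fin I.m, r = ((List.ofFn fun j => intCode (I.W i j)).map zof, zof (intCode (I.w i))) := by
  unfold rowsC Inst.code
  simp only [List.mem_map, List.mem_ofFn]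
  constructor
  · rintro ⟨a, ⟨i, rfl⟩, rfl⟩
    exact ⟨i, rfl⟩
  · rintro ⟨i, rfl⟩
    exact ⟨_, ⟨i, rfl⟩, rfl⟩

theorem utb_row_lz (I : Inst) (i : Fin I.m) :
    lz I.n ((List.ofFn fun j => intCode (I.W i j)).map zof) = I.W i := by
  funext j
  unfold lz
  have h : j.val < ((List.ofFn fun j => intCode (I.W i j)).map zof).length := by simp
  rw [List.getD_eq_getElem _ _ h, List.getElem_map, List.getElem_ofFn, val_zof]

theorem utb_sol_rows (I : Inst) (x : Fin I.n → ℤ) :
    x ∈ Sol I.n (rowsC I.code) ↔ x ∈ I.feasible := by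
  unfold Sol Inst.feasible
  simp only [Set.mem_setOf_eq]
  constructor
  · intro h i
    have h1 := h _ ((utb_mem_rows I _).2 ⟨i, rfl⟩)
    simp only [utb_row_lz, val_zof] at h1
    exact h1
  · intro h r hr
    obtain ⟨i, rfl⟩ := (utb_mem_rows I r).1 hr
    simp only [utb_row_lz, val_zof]
    exact h i

/-- The box of the radius `2 ^ k`. -/
def bbx (d k : ℕ) : List Zn × List Zn :=
  (List.replicate d (⟨0⟩, BN.pow2 k), List.replicate d (BN.pow2 k, ⟨0⟩))

theorem bbx_lo (d k : ℕ) (j : Fin d) : lz d (bbx d k).1 j = -2 ^ k := by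
  unfold lz bbx
  simp only
  rw [List.getD_eq_getElem _ _ (by simp), List.getElem_replicate, Zn.val_bn', BN.val_pow2]
  push_cast
  rfl

theorem bbx_hi (d k : ℕ) (j : Fin d) : lz d (bbx d k).2 j = 2 ^ k := by
  unfold lz bbx
  simp only
  rw [List.getD_eq_getElem _ _ (by simp), List.getElem_replicate, Zn.val_bn, BN.val_pow2]
  push_cast
  rfl

/-- The system with the large box is well formed. -/
theorem utb_ok (hT : TurStmt) (hA : CdaStmt) (I : Inst) (hW : I.W.IsTotallyUnimodular) (k : ℕ)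
    (hk : szC I.code ≤ k) :
    Ok (k + 2) I.n (rowsC I.code ++ boxR I.n (bbx I.n k)) (fobC I.code) := by
  have h0 := (hA I hW).2.1
  have hsz : I.n ≤ szC I.code := by
    unfold szC
    rw [code2_length]
    omega
  have hpow : (2 : ℤ) ^ (szC I.code + 2) ≤ 2 ^ (k + 2) :=
    pow_le_pow_right₀ (by norm_num) (by omega)
  refine ⟨h0.d1, by omega, ?_, h0.lenF, ?_, ?_, fun j => (h0.cq j).trans hpow,
    fun j => (h0.ch j).trans hpow⟩
  · intro r hr
    rcases List.mem_append.1 hr with hr | hr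
    · obtain ⟨i, rfl⟩ := (utb_mem_rows I r).1 hr
      simp
    · exact (unit1_box _ _ r hr).1
  · apply hT _ _ _ I.W _ hW
    intro i
    have hmem : (rowsC I.code ++ boxR I.n (bbx I.n k)).get i ∈
        rowsC I.code ++ boxR I.n (bbx I.n k) := List.get_mem _ _
    rcases List.mem_append.1 hmem with hr | hr
    · left
      obtain ⟨i', hi'⟩ := (utb_mem_rows I _).1 hr
      refine ⟨i', ?_⟩
      unfold MR
      rw [hi']
      exact utb_row_lz I i'
    · right; right
      rcases (unit1_box _ _ _ hr).2 with ⟨j, hj⟩ | ⟨j, hj⟩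
      · left
        exact ⟨j, hj⟩
      · right; left
        exact ⟨j, hj⟩
  · intro x hx j
    have hsum : ∀ s : Zn, ∑ l, (lz I.n (unitR I.n j s) l : ℝ) * x l = (Zn.val s : ℝ) * x j := by
      intro s
      rw [lz_unitR I.n j s j.2, Finset.sum_eq_single j]
      · have : (⟨j.val, j.2⟩ : Fin I.n) = j := rfl
        rw [this, Pi.single_eq_same]
      · intro l _ hl
        have : (⟨j.val, j.2⟩ : Fin I.n) = j := rfl
        rw [this, Pi.single_eq_of_ne hl]
        simp
      · intro h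
        exact absurd (Finset.mem_univ _) h
    have h1 := hx (unitR I.n j Zn.one, (bbx I.n k).2.getD j Zn.zero)
      (List.mem_append_right _ (List.mem_append_left _
        (List.mem_map.2 ⟨j.val, List.mem_range.2 j.2, rfl⟩)))
    have h2 := hx (unitR I.n j (Zn.neg Zn.one), Zn.neg ((bbx I.n k).1.getD j Zn.zero))
      (List.mem_append_right _ (List.mem_append_right _
        (List.mem_map.2 ⟨j.val, List.mem_range.2 j.2, rfl⟩)))
    have e1 : Zn.val ((bbx I.n k).2.getD j Zn.zero) = 2 ^ k := bbx_hi I.n k j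
    have e2 : Zn.val ((bbx I.n k).1.getD j Zn.zero) = -2 ^ k := bbx_lo I.n k j
    simp only [hsum, Zn.val_neg, Zn.val_one, e1, e2] at h1 h2
    push_cast at h1 h2
    have h3 : (1 : ℝ) ≤ 2 ^ k := one_le_pow₀ (by norm_num)
    have h4 : (2 : ℝ) ^ (k + 2) = 4 * 2 ^ k := by ring
    rw [abs_le, h4]
    constructor <;> linarith

theorem utb_slc_eq (I : Inst) (v : ℕ) (t : Zn) : slcC I.code v t =
    (rowsC I.code ++ boxR I.n (bbx I.n (8 * eE (szC I.code)))) ++ fixR I.n v t := by
  unfold slcC bbx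
  rw [code2_length]

theorem utb_sz_le (I : Inst) : szC I.code ≤ 8 * eE (szC I.code) := by
  unfold eE
  nlinarith [Nat.zero_le (szC I.code)]

theorem utb_slc_ok (hT : TurStmt) (hA : CdaStmt) (I : Inst) (hW : I.W.IsTotallyUnimodular)
    (v : Fin I.n) (t : Zn) :
    Ok (8 * eE (szC I.code) + 2) I.n (slcC I.code v t) (fobC I.code) := by
  rw [utb_slc_eq]
  exact ok_append hT (utb_ok hT hA I hW _ (utb_sz_le I)) (unit1_fix _ _ v.2 t)

theorem utb_slc_sol (I : Inst) (v : Fin I.n) (t : Zn) (x : Fin I.n → ℤ) :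
    x ∈ Sol I.n (slcC I.code v t) ↔
      x ∈ I.feasible ∧ (∀ j, |x j| ≤ 2 ^ (8 * eE (szC I.code))) ∧ x v = Zn.val t := by
  rw [utb_slc_eq, mem_sol_append, mem_sol_append, mem_sol_box, mem_sol_fix _ _ v.2, utb_sol_rows,
    and_assoc]
  simp only [bbx_lo, bbx_hi, abs_le]

/-- The test of one slice. -/
theorem utb_tst (hS : SlvStmt) (hT : TurStmt) (hA : CdaStmt) (hB : CdbStmt) (I : Inst)
    (hW : I.W.IsTotallyUnimodular) (hV : I.V.card ≤ 1) (v : Fin I.n) (hv : v ∈ I.V) (t : Zn) :
    tstC I.code v t = true ↔ ∃ x ∈ I.feasible, x v = Zn.val t ∧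
      (∀ j, |x j| ≤ 2 ^ (8 * eE (szC I.code))) ∧ I.f x < -2 ^ (3 * eE (szC I.code)) := by
  obtain ⟨b1, -, -, -, b5, b6⟩ := hB I
  have hok := utb_slc_ok hT hA I hW v t
  obtain ⟨s1, s2⟩ := hS _ _ _ _ hok
  have hval : ∀ x : List Zn, x.length = I.n → Zn.val (gv (gobC I.code) x) = I.f (lz I.n x) := by
    intro x hx
    have h := (utb_val_gv I.n (gobC I.code) x b1 hx).trans (b6 (lz I.n x))
    exact_mod_cast h
  have hdiff : ∀ x y : Fin I.n → ℤ, x v = y v →
      I.f x - I.f y = fv I.n (fobC I.code) x - fv I.n (fobC I.code) y := by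
    intro x y hxy
    have h : (I.f x : ℝ) - I.f y =
        (fv I.n (fobC I.code) x : ℝ) - fv I.n (fobC I.code) y := by
      rw [← b6 x, ← b6 y]
      unfold gq fv
      push_cast
      rw [← Finset.sum_sub_distrib, ← Finset.sum_sub_distrib]
      refine Finset.sum_congr rfl fun j _ => ?_
      obtain ⟨c1, c2, c3⟩ := b5 j
      rw [c1]
      by_cases hj : j.val ∈ vinC I.code
      · have hjV : j ∈ I.V := (mem_vin I j).1 hj
        have : j = v := Finset.card_le_one.1 hV j hjV v hv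
        subst this
        rw [hxy]
        ring
      · rw [c3 hj]
    exact_mod_cast h
  have hcl : I.code.2.length = I.n := code2_length I
  unfold tstC
  rw [hcl]
  cases hs : solve (8 * eE (szC I.code) + 2) I.n (slcC I.code v t) (fobC I.code) with
  | none =>
    have hempty := s1 hs
    simp only [Option.map_none, Option.getD_none, Bool.false_eq_true, false_iff]
    rintro ⟨x, hx, hxv, hxb, -⟩
    have : x ∈ Sol I.n (slcC I.code v t) := (utb_slc_sol I v t x).2 ⟨hx, hxb, hxv⟩
    rw [hempty] at this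
    exact this
  | some z =>
    obtain ⟨z1, z2, z3⟩ := s2 z hs
    obtain ⟨w1, w2, w3⟩ := (utb_slc_sol I v t _).1 z2
    simp only [Option.map_some, Option.getD_some, Bool.not_eq_true']
    have hle : Zn.le (⟨0⟩, BN.pow2 (3 * eE (szC I.code))) (gv (gobC I.code) z) = false ↔
        I.f (lz I.n z) < -2 ^ (3 * eE (szC I.code)) := by
      rw [← Bool.not_eq_true, Zn.le_iff, hval z z1, Zn.val_bn', BN.val_pow2, not_le]
      push_cast
      rfl
    rw [hle]
    constructor
    · intro h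
      exact ⟨lz I.n z, w1, w3, w2, h⟩
    · rintro ⟨x, hx, hxv, hxb, hxf⟩
      have hxs : x ∈ Sol I.n (slcC I.code v t) := (utb_slc_sol I v t x).2 ⟨hx, hxb, hxv⟩
      have h1 := z3 x hxs
      have h2 := hdiff (lz I.n z) x (w3.trans hxv.symm)
      omega

/-- UTB. -/
theorem utb (hS : SlvStmt) (hT : TurStmt) (hA : CdaStmt) (hB : CdbStmt) : UtbStmt := by
  intro I hW hV
  unfold unb2
  rw [List.any_eq_true]
  constructor
  · rintro ⟨i, hi, h⟩
    have hlt := vin_lt I i hi
    have hv : (⟨i, hlt⟩ : Fin I.n) ∈ I.V := (mem_vin I ⟨i, hlt⟩).1 hi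
    rw [Bool.or_eq_true] at h
    refine ⟨⟨i, hlt⟩, hv, ?_⟩
    rcases h with h | h
    · obtain ⟨x, h1, h2, h3, h4⟩ := (utb_tst hS hT hA hB I hW hV ⟨i, hlt⟩ hv _).1 h
      refine ⟨x, h1, Or.inl ?_, h3, h4⟩
      rw [h2, Zn.val_bn, BN.val_pow2]
      push_cast
      rfl
    · obtain ⟨x, h1, h2, h3, h4⟩ := (utb_tst hS hT hA hB I hW hV ⟨i, hlt⟩ hv _).1 h
      refine ⟨x, h1, Or.inr ?_, h3, h4⟩
      rw [h2, Zn.val_bn', BN.val_pow2]
      push_cast
      rfl
  · rintro ⟨v, hv, x, h1, h2, h3, h4⟩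
    refine ⟨v.val, (mem_vin I v).2 hv, ?_⟩
    rw [Bool.or_eq_true]
    rcases h2 with h2 | h2
    · left
      refine (utb_tst hS hT hA hB I hW hV v hv _).2 ⟨x, h1, ?_, h3, h4⟩
      rw [h2, Zn.val_bn, BN.val_pow2]
      push_cast
      rfl
    · right
      refine (utb_tst hS hT hA hB I hW hV v hv _).2 ⟨x, h1, ?_, h3, h4⟩
      rw [h2, Zn.val_bn', BN.val_pow2]
      push_cast
      rfl

end Pool.Agent.Helper8.SQ
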